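import Pool.Agent.Lib.MP_7f581e_U.D.Spec1

/-!
MP_7f581e, U/D, module ChD: the ultraproduct has characteristic zero.
-/

set_option autoImplicit false

namespace MP7U

open Polynomial

theorem dChD : ChDStmt := by
  intro p _ K _ π hπ hp
  apply charZero_of_inj_zero
  intro m hm
  by_contra hm0
  have h1 : π (((m : ℕ) : ∀ n, ZMod (p n)) * (fun n => ((m : ℕ) : ZMod (p n))⁻¹) - 1) = 0 := by
    apply hπ.tail
    refine ⟨m, fun n hn => ?_⟩
    have h2 : ((m : ℕ) : ZMod (p n)) ≠ 0 := by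
      intro h3
      have h4 := Nat.le_of_dvd (Nat.pos_of_ne_zero hm0) ((ZMod.natCast_eq_zero_iff m (p n)).1 h3)
      have h5 := hp n
      omega
    show ((m : ℕ) : ZMod (p n)) * ((m : ℕ) : ZMod (p n))⁻¹ - 1 = 0
    rw [mul_inv_cancel₀ h2, sub_self]
  rw [map_sub, map_mul, map_natCast, map_one, hm, zero_mul, zero_sub, neg_eq_zero] at h1
  exact one_ne_zero h1

end MP7U
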