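import Pool.Agent.Lib.MP_7f581e_U.D.Spec1

/-!
MP_7f581e, U/D, module ExD: existence of the ultraproduct.
-/

set_option autoImplicit false

namespace MP7U

open Polynomial

/-- the ideal of the sequences which are eventually zero -/
private def exdI (p : ℕ → ℕ) : Ideal (∀ n, ZMod (p n)) where
  carrier := {x | ∃ n₀, ∀ n, n₀ ≤ n → x n = 0}
  zero_mem' := ⟨0, fun _ _ => rfl⟩
  add_mem' := by
    rintro x y ⟨a, ha⟩ ⟨b, hb⟩
    refine ⟨max a b, fun n hn => ?_⟩
    show x n + y n = 0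
    rw [ha n ((le_max_left a b).trans hn), hb n ((le_max_right a b).trans hn), add_zero]
  smul_mem' := by
    rintro c x ⟨a, ha⟩
    refine ⟨a, fun n hn => ?_⟩
    show c n * x n = 0
    rw [ha n hn, mul_zero]

theorem dExD : ExDStmt := by
  intro p hp
  have hne : exdI p ≠ ⊤ := by
    rw [Ideal.ne_top_iff_one]
    rintro ⟨n₀, h⟩
    have : Fact (p n₀).Prime := ⟨hp n₀⟩
    exact one_ne_zero (h n₀ le_rfl)
  obtain ⟨M, hM, hle⟩ := Ideal.exists_le_maximal _ hne
  letI inst : Field ((∀ n, ZMod (p n)) ⧸ M) := Ideal.Quotient.field M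
  exact ⟨(∀ n, ZMod (p n)) ⧸ M, inst, Ideal.Quotient.mk M,
    { surj := Ideal.Quotient.mk_surjective
      tail := fun x hx => Ideal.Quotient.eq_zero_iff_mem.2 (hle hx) }⟩

end MP7U
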