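import Pool.Agent.Lib.MP_7f581e_U.D.Spec1

/-!
# C41 (MP_7f581e_nt), Block D: homomorphisms from finitely generated subrings
-/

set_option autoImplicit false

namespace MP7U

open Polynomial

theorem dFinD (h1 : LgDStmt) : FinDStmt := by
  classical
  intro p _ K _ π hup S
  obtain ⟨hl1, hl2, hl3, hl4, hl5, hl6⟩ := h1 p K π hup
  choose ξ hξ using hup.surj
  let η : MvPolynomial S ℤ →+* K := MvPolynomial.eval₂Hom (Int.castRingHom K) fun s => (s : K)
  let ηn : ∀ n, MvPolynomial S ℤ →+* ZMod (p n) := fun n =>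
    MvPolynomial.eval₂Hom (Int.castRingHom (ZMod (p n))) fun s => ξ (s : K) n
  have hηX : ∀ s : S, η (MvPolynomial.X s) = (s : K) := fun s => by
    simp [η]
  have hη : ∀ Q, η Q = π (fun n => ηn n Q) := by
    intro Q
    have h : η = π.comp (RingHom.pi ηn) := by
      apply MvPolynomial.ringHom_ext
      · intro r
        have h2 : η.comp MvPolynomial.C = (π.comp (RingHom.pi ηn)).comp MvPolynomial.C :=
          RingHom.ext_int _ _
        exact DFunLike.congr_fun h2 r
      · intro s
        rw [hηX, RingHom.comp_apply]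
        have h2 : RingHom.pi ηn (MvPolynomial.X s) = ξ (s : K) := by
          funext n
          exact MvPolynomial.eval₂Hom_X' _ _ _
        rw [h2, hξ]
    exact DFunLike.congr_fun h Q
  have hmem : ∀ Q, η Q ∈ cl S := by
    intro Q
    induction Q using MvPolynomial.induction_on with
    | C a =>
      have h2 : η (MvPolynomial.C a) = (a : K) := by simp [η]
      rw [h2]
      exact intCast_mem _ a
    | add P Q hP hQ => rw [map_add]; exact add_mem hP hQ
    | mul_X P s hP =>
      rw [map_mul, hηX]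
      exact mul_mem hP (Subring.subset_closure (Finset.mem_coe.mpr s.2))
  have hsurj : ∀ z ∈ cl S, ∃ Q, η Q = z := by
    have h2 : cl S ≤ η.range := by
      rw [Subring.closure_le]
      intro s hs
      exact ⟨MvPolynomial.X ⟨s, Finset.mem_coe.mp hs⟩, hηX _⟩
    exact fun z hz => h2 hz
  let η' : MvPolynomial S ℤ →+* cl S := η.codRestrict (cl S) hmem
  have hη's : Function.Surjective η' := by
    rintro ⟨z, hz⟩
    obtain ⟨Q, hQ⟩ := hsurj z hz
    exact ⟨Q, Subtype.ext hQ⟩
  obtain ⟨t, ht⟩ := (isNoetherianRing_iff_ideal_fg _).mp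
    (inferInstance : IsNoetherianRing (MvPolynomial S ℤ)) (RingHom.ker η')
  have hker : ∀ n, (∀ j ∈ t, ηn n j = 0) → RingHom.ker η' ≤ RingHom.ker (ηn n) := by
    intro n hn
    rw [← ht, Ideal.span_le]
    intro j hj
    exact (RingHom.mem_ker).mpr (hn j (Finset.mem_coe.mp hj))
  have ht0 : ∀ j ∈ t, η j = 0 := by
    intro j hj
    have h2 : j ∈ RingHom.ker η' := by
      rw [← ht]
      exact Ideal.subset_span (Finset.mem_coe.mpr hj)
    exact congrArg Subtype.val (RingHom.mem_ker.mp h2)
  have hlarge : ∀ t' : Finset (MvPolynomial S ℤ), (∀ j ∈ t', η j = 0) →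
      Lg π {n | ∀ j ∈ t', ηn n j = 0} := by
    intro t'
    induction t' using Finset.induction_on with
    | empty =>
      intro _
      refine hl2 {n | 0 ≤ n} _ (fun n _ j hj => absurd hj (Finset.notMem_empty j)) (hl1 0)
    | insert a s _ ih =>
      intro hs
      have h3 := ih fun j hj => hs j (Finset.mem_insert_of_mem hj)
      have h4 : Lg π {n | (fun n => ηn n a) n = 0} :=
        hl4 _ (by rw [← hη]; exact hs a (Finset.mem_insert_self a s))
      refine hl2 _ _ ?_ (hl3 _ _ h3 h4)
      rintro n ⟨hn1, hn2⟩ j hj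
      rcases Finset.mem_insert.mp hj with rfl | hj
      · exact hn2
      · exact hn1 j hj
  refine ⟨{n | ∀ j ∈ t, ηn n j = 0}, fun n hn => η'.liftOfSurjective hη's ⟨ηn n, hker n hn⟩,
    hlarge t ht0, ?_⟩
  intro a x hx
  obtain ⟨Q, rfl⟩ := hη's a
  have h2 : π (x - fun n => ηn n Q) = 0 := by
    refine hlarge t ht0 _ fun n hn => ?_
    rw [Pi.sub_apply, hx n hn, sub_eq_zero]
    exact RingHom.liftOfRightInverse_comp_apply _ _ _ _ _
  rw [map_sub, ← hη, sub_eq_zero] at h2
  exact h2

end MP7U
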