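import Pool.Agent.Lib.MP_7f581e_U.D.Spec1

/-!
# C41 (MP_7f581e_nt), Block D: large sets
-/

set_option autoImplicit false

namespace MP7U

open Polynomial

theorem dLgD : LgDStmt := by
  classical
  intro p _ K _ π hup
  refine ⟨?_, ?_, ?_, ?_, ?_, ?_⟩
  · intro n₀ x hx
    exact hup.tail x ⟨n₀, fun n hn => hx n hn⟩
  · intro U V hUV hU x hx
    exact hU x fun n hn => hx n (hUV hn)
  · intro U V hU hV x hx
    have h1 : π (fun n => if n ∈ U then x n else 0) = 0 := by
      refine hV _ fun n hn => ?_
      by_cases h : n ∈ U
      · rw [if_pos h]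
        exact hx n ⟨h, hn⟩
      · rw [if_neg h]
    have h2 : π (fun n => if n ∈ U then 0 else x n) = 0 := by
      refine hU _ fun n hn => ?_
      rw [if_pos hn]
    have h3 : x = (fun n => if n ∈ U then x n else 0) + (fun n => if n ∈ U then 0 else x n) := by
      funext n
      rw [Pi.add_apply]
      by_cases h : n ∈ U
      · rw [if_pos h, if_pos h, add_zero]
      · rw [if_neg h, if_neg h, zero_add]
    rw [h3, map_add, h1, h2, add_zero]
  · intro x hx y hy
    have h1 : y = x * (fun n => y n / x n) := by
      funext n
      rw [Pi.mul_apply]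
      by_cases h : x n = 0
      · rw [hy n h, h, zero_mul]
      · rw [mul_div_cancel₀ _ h]
    rw [h1, map_mul, hx, zero_mul]
  · intro x hx y hy
    have h1 : x * y = 0 := by
      funext n
      rw [Pi.mul_apply, Pi.zero_apply]
      by_cases h : x n = 0
      · rw [h, zero_mul]
      · rw [hy n h, mul_zero]
    have h2 : π x * π y = 0 := by rw [← map_mul, h1, map_zero]
    exact (mul_eq_zero.mp h2).resolve_left hx
  · intro U hU
    by_contra h
    rw [Set.not_nonempty_iff_eq_empty] at h
    have h1 : π 1 = 0 := hU 1 fun n hn => by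
      rw [h] at hn
      exact absurd hn (Set.notMem_empty n)
    rw [map_one] at h1
    exact one_ne_zero h1

end MP7U
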