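import Pool.Agent.Lib.MP_7f581e_U.D.Spec1

/-!
# C41 (MP_7f581e_nt), Block D: the ultraproduct is a PAC field
-/

set_option autoImplicit false

namespace MP7U

open Polynomial

namespace PacDAux

/-- The evaluation of a polynomial in two variables. -/
noncomputable def evv {A B : Type} [CommRing A] [CommRing B] (ψ : A →+* B) (x y : B) :
    A[X][X] →+* B :=
  eval₂RingHom (eval₂RingHom ψ x) y

theorem evv_eq {A B : Type} [CommRing A] [CommRing B] (ψ : A →+* B) (x y : B) (Q : A[X][X]) :
    ((Q.map (mapRingHom ψ)).eval (C y)).eval x = evv ψ x y Q := by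
  have h : (evalRingHom x).comp ((evalRingHom (C y)).comp (mapRingHom (mapRingHom ψ))) =
      evv ψ x y := by
    apply Polynomial.ringHom_ext'
    · apply Polynomial.ringHom_ext'
      · ext a
        simp [evv]
      · simp [evv]
    · simp [evv]
  exact DFunLike.congr_fun h Q

theorem evv_C {A B : Type} [CommRing A] [CommRing B] (ψ : A →+* B) (x y : B) (q : A[X]) :
    (q.map ψ).eval x = evv ψ x y (C q) := by
  simp [evv, eval₂_eq_eval_map]

theorem hom_evv {A B B' : Type} [CommRing A] [CommRing B] [CommRing B'] (τ : B →+* B')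
    (ψ : A →+* B) (x y : B) (Q : A[X][X]) :
    τ (evv ψ x y Q) = evv (τ.comp ψ) (τ x) (τ y) Q := by
  have h : τ.comp (evv ψ x y) = evv (τ.comp ψ) (τ x) (τ y) := by
    apply Polynomial.ringHom_ext'
    · apply Polynomial.ringHom_ext'
      · ext a
        simp [evv]
      · simp [evv]
    · simp [evv]
  exact DFunLike.congr_fun h Q

/-- Lifting a polynomial in two variables to a subring. -/
theorem exists_lift {A B : Type} [CommRing A] [CommRing B] (ι : A →+* B) (f : B[X][X])
    (h : ∀ i j, (f.coeff i).coeff j ∈ ι.range) : ∃ f₀ : A[X][X], f₀.map (mapRingHom ι) = f := by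
  rw [← mem_lifts, lifts_iff_coeff_lifts]
  intro i
  have h1 : f.coeff i ∈ lifts ι := by
    rw [lifts_iff_coeff_lifts]
    intro j
    exact h i j
  obtain ⟨q, hq⟩ := (mem_lifts _).mp h1
  exact ⟨q, hq⟩

theorem exists_lift' {A B : Type} [CommRing A] [CommRing B] (ι : A →+* B) (f : B[X])
    (h : ∀ j, f.coeff j ∈ ι.range) : ∃ f₀ : A[X], f₀.map ι = f := by
  rw [← mem_lifts, lifts_iff_coeff_lifts]
  exact h

section

variable {p : ℕ → ℕ} {K : Type} [Field K]

theorem agree {π : (∀ n, ZMod (p n)) →+* K} {U : Set ℕ} (hU : Lg π U)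
    (x y : ∀ n, ZMod (p n)) (h : ∀ n ∈ U, x n = y n) : π x = π y := by
  rw [← sub_eq_zero, ← map_sub]
  exact hU _ fun n hn => by rw [Pi.sub_apply, h n hn, sub_self]

open Classical in
/-- Extension by zero. -/
noncomputable def ext0 (U : Set ℕ) (z : ∀ n : U, ZMod (p n)) : ∀ n, ZMod (p n) :=
  fun n => if h : n ∈ U then z ⟨n, h⟩ else 0

theorem ext0_mem (U : Set ℕ) (z : ∀ n : U, ZMod (p n)) (n : ℕ) (h : n ∈ U) :
    ext0 U z n = z ⟨n, h⟩ := by
  rw [ext0, dif_pos h]

theorem ext0_not (U : Set ℕ) (z : ∀ n : U, ZMod (p n)) (n : ℕ) (h : n ∉ U) :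
    ext0 U z n = 0 := by
  rw [ext0, dif_neg h]

/-- The factorization of `π` through the coordinates in a large set. -/
noncomputable def piU (π : (∀ n, ZMod (p n)) →+* K) (U : Set ℕ) (hU : Lg π U) :
    (∀ n : U, ZMod (p n)) →+* K where
  toFun z := π (ext0 U z)
  map_one' := by
    rw [← map_one π]
    exact agree hU _ _ fun n hn => by rw [ext0_mem U _ n hn]; rfl
  map_zero' := by
    rw [← map_zero π]
    exact agree hU _ _ fun n hn => by rw [ext0_mem U _ n hn]; rfl
  map_mul' z w := by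
    rw [← map_mul π]
    exact agree hU _ _ fun n hn => by
      rw [ext0_mem U _ n hn, Pi.mul_apply, Pi.mul_apply, ext0_mem U _ n hn, ext0_mem U _ n hn]
  map_add' z w := by
    rw [← map_add π]
    exact agree hU _ _ fun n hn => by
      rw [ext0_mem U _ n hn, Pi.add_apply, Pi.add_apply, ext0_mem U _ n hn, ext0_mem U _ n hn]

theorem piU_apply (π : (∀ n, ZMod (p n)) →+* K) (U : Set ℕ) (hU : Lg π U)
    (z : ∀ n : U, ZMod (p n)) : piU π U hU z = π (ext0 U z) := rfl

theorem piU_restrict (π : (∀ n, ZMod (p n)) →+* K) (U : Set ℕ) (hU : Lg π U)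
    (x : ∀ n, ZMod (p n)) : piU π U hU (fun n => x n) = π x := by
  rw [piU_apply]
  exact agree hU _ _ fun n hn => by rw [ext0_mem U _ n hn]

end

end PacDAux

open PacDAux in
theorem dPacD (h1 : WthEStmt) (h2 : IrrBStmt) (h3 : LgDStmt) (h4 : FinDStmt) : PacDStmt := by
  classical
  intro p _ K _ π hup hpn f hf hf1 habs g hg
  obtain ⟨hl1, hl2, hl3, hl4, hl5, hl6⟩ := h3 p K π hup
  obtain ⟨S₁, hS₁, hirr⟩ := h2 K f hf hf1 habs
  obtain ⟨S, hS⟩ : ∃ S, S = S₁ ∪ g.support.image g.coeff := ⟨_, rfl⟩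
  have hS1S : S₁ ⊆ S := hS ▸ Finset.subset_union_left
  have hfmem : ∀ i j, (f.coeff i).coeff j ∈ (cl S).subtype.range := by
    intro i j
    rw [Subring.range_subtype]
    exact Subring.closure_mono (Finset.coe_subset.mpr hS1S) (hS₁ i j)
  have hgmem : ∀ j, g.coeff j ∈ (cl S).subtype.range := by
    intro j
    rw [Subring.range_subtype]
    by_cases hj : j ∈ g.support
    · refine Subring.subset_closure (Finset.mem_coe.mpr ?_)
      rw [hS]
      exact Finset.mem_union_right _ (Finset.mem_image_of_mem _ hj)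
    · rw [notMem_support_iff.mp hj]
      exact zero_mem _
  obtain ⟨f₀, hf₀⟩ := exists_lift (cl S).subtype f hfmem
  obtain ⟨g₀, hg₀⟩ := exists_lift' (cl S).subtype g hgmem
  have hsub : Function.Injective (cl S).subtype := Subring.subtype_injective _
  have hf₀m : f₀.Monic := by
    refine monic_of_injective (f := mapRingHom (cl S).subtype) (Polynomial.map_injective _ hsub) ?_
    rw [hf₀]
    exact hf
  have hf₀d : f₀.natDegree = f.natDegree := by
    rw [← hf₀, hf₀m.natDegree_map]
  have hg₀0 : g₀ ≠ 0 := by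
    rintro rfl
    rw [Polynomial.map_zero] at hg₀
    exact hg hg₀.symm
  -- degree bound
  obtain ⟨D, hD⟩ : ∃ D, D = (f.support.sup fun i => (f.coeff i).natDegree) + g.natDegree + 1 :=
    ⟨_, rfl⟩
  have hDf : ∀ i, (f.coeff i).natDegree ≤ D := by
    intro i
    by_cases hi : i ∈ f.support
    · have h5 : (f.coeff i).natDegree ≤ f.support.sup fun i => (f.coeff i).natDegree :=
        Finset.le_sup (f := fun i => (f.coeff i).natDegree) hi
      omega
    · rw [notMem_support_iff.mp hi, natDegree_zero]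
      omega
  have hDg : g.natDegree ≤ D := by omega
  have hDf₀ : ∀ i, (f₀.coeff i).natDegree ≤ D := by
    intro i
    have h5 : ((f₀.coeff i).map (cl S).subtype).natDegree = (f₀.coeff i).natDegree :=
      natDegree_map_eq_of_injective hsub _
    rw [← h5]
    have h6 : (f₀.coeff i).map (cl S).subtype = f.coeff i := by
      rw [← hf₀, coeff_map]
      rfl
    rw [h6]
    exact hDf i
  have hDg₀ : g₀.natDegree ≤ D := by
    rw [← natDegree_map_eq_of_injective hsub g₀, hg₀]
    exact hDg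
  obtain ⟨U, φ, hU, hφ⟩ := h4 p K π hup S
  obtain ⟨p₀, hp₀⟩ := h1 f.natDegree D hf1 (by omega)
  -- the set where the leading coefficient of `g` does not vanish
  let Φ : cl S →+* ∀ n : U, ZMod (p n) := RingHom.pi fun n => φ n n.2
  have hΦ : (piU π U hU).comp Φ = (cl S).subtype := by
    refine RingHom.ext fun a => ?_
    rw [RingHom.comp_apply, piU_apply]
    exact hφ a _ fun n h => ext0_mem U _ n h
  have hV : Lg π {n | ext0 U (Φ g₀.leadingCoeff) n ≠ 0} := by
    refine hl5 _ ?_
    rw [← piU_apply π U hU, ← RingHom.comp_apply, hΦ]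
    intro h5
    exact leadingCoeff_ne_zero.mpr hg₀0 (hsub (by rw [h5, map_zero]))
  have hW := hl3 _ _ hV (hl1 p₀)
  have hex : ∀ n, ∃ a b : ZMod (p n),
      n ∈ {n | ext0 U (Φ g₀.leadingCoeff) n ≠ 0} ∩ {n | p₀ ≤ n} → ∃ h : n ∈ U,
      (g₀.map (φ n h)).eval a ≠ 0 ∧ ((f₀.map (mapRingHom (φ n h))).eval (C b)).eval a = 0 := by
    intro n
    by_cases hn : n ∈ {n | ext0 U (Φ g₀.leadingCoeff) n ≠ 0} ∩ {n | p₀ ≤ n}
    · obtain ⟨hn1, hn2⟩ := hn
      have hnU : n ∈ U := by
        by_contra h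
        exact hn1 (ext0_not U _ n h)
      have hn3 : φ n hnU g₀.leadingCoeff ≠ 0 := by
        intro h
        refine hn1 ?_
        rw [ext0_mem U _ n hnU]
        exact h
      have hgn : g₀.map (φ n hnU) ≠ 0 := by
        intro h
        have h5 : (g₀.map (φ n hnU)).coeff g₀.natDegree = 0 := by rw [h, coeff_zero]
        rw [coeff_map] at h5
        exact hn3 h5
      have hlt : p₀ < p n := lt_of_le_of_lt hn2 (hpn n)
      obtain ⟨a, b, hab⟩ := hp₀ (p n) hlt (f₀.map (mapRingHom (φ n hnU))) (g₀.map (φ n hnU))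
        (hf₀m.map _) (by rw [hf₀m.natDegree_map, hf₀d])
        (fun i => by
          rw [coeff_map]
          exact (natDegree_map_le).trans (hDf₀ i))
        (by
          have h5 := hirr S hS1S (AlgebraicClosure (ZMod (p n)))
            ((algebraMap (ZMod (p n)) (AlgebraicClosure (ZMod (p n)))).comp (φ n hnU)) f₀ hf₀
          unfold IrrR at h5
          rw [Polynomial.map_map] at h5 ⊢
          rw [RingHom.comp_assoc, mapRingHom_comp]
          exact h5)
        hgn (natDegree_map_le.trans hDg₀)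
      exact ⟨a, b, fun _ => ⟨hnU, hab⟩⟩
    · exact ⟨0, 0, fun h => absurd h hn⟩
  choose x y hxy using hex
  have hkey : ∀ Q : (cl S)[X][X], evv (cl S).subtype (π x) (π y) Q =
      π (ext0 U fun n => evv (φ n n.2) (x n) (y n) Q) := by
    intro Q
    rw [← hΦ, ← piU_restrict π U hU x, ← piU_restrict π U hU y, ← hom_evv, piU_apply]
    congr 1
    congr 1
    funext n
    exact hom_evv (Pi.evalRingHom (fun n : U => ZMod (p n)) n) Φ _ _ Q
  refine ⟨π x, π y, ?_, ?_⟩
  · intro h5
    rw [← hg₀, evv_C _ _ (π y), hkey] at h5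
    obtain ⟨n, hn1, hn2⟩ := hl6 _ (hl3 _ _ (hl4 _ h5) hW)
    obtain ⟨hnU, hn3, _⟩ := hxy n hn2
    refine hn3 ?_
    rw [evv_C _ _ (y n)]
    have h6 : ext0 U (fun n => evv (φ n n.2) (x n) (y n) (C g₀)) n = 0 := hn1
    rw [ext0_mem U _ n hnU] at h6
    exact h6
  · rw [← hf₀, evv_eq, hkey]
    refine hW _ fun n hn => ?_
    obtain ⟨hnU, _, hn3⟩ := hxy n hn
    rw [ext0_mem U _ n hnU]
    rw [evv_eq] at hn3
    exact hn3

end MP7U
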