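import Pool.Agent.Lib.MP_7f581e_U.E.All
import Pool.Agent.Lib.MP_7f581e_U.B.All
import Pool.Agent.Lib.MP_7f581e_U.D.ExD
import Pool.Agent.Lib.MP_7f581e_U.D.ChD
import Pool.Agent.Lib.MP_7f581e_U.D.LgD
import Pool.Agent.Lib.MP_7f581e_U.D.FinD
import Pool.Agent.Lib.MP_7f581e_U.D.PacD

/-!
# C41 (MP_7f581e_nt), Block D, assembly
-/

set_option autoImplicit false

namespace MP7U

theorem xExD : ExDStmt := dExD

theorem xChD : ChDStmt := dChD

theorem xLgD : LgDStmt := dLgD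

theorem xFinD : FinDStmt := dFinD xLgD

theorem xPacD : PacDStmt := dPacD xWthE xIrrB xLgD xFinD

end MP7U
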