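import Pool.Agent.Lib.MP_7f581e_U.B.Spec1
import Pool.Agent.Lib.MP_7f581e_U.E.Spec2

/-!
# C41 (MP_7f581e_nt), Block D: ultraproducts of the fields `𝔽_p`

One Lean task for each `def XStmt : Prop`: file `MP_7f581e_U/D/X.lean`, import this file,
`namespace MP7U`, `theorem dX : XStmt` (statements which are used are hypotheses, in the order of
the docstring: `theorem dX (h1 : AStmt) (h2 : BStmt) : XStmt`).
-/

set_option autoImplicit false

namespace MP7U

open Polynomial

/-- `K` is a quotient field of `∏ ZMod (p n)`, in which the sequences which are eventually `0`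
vanish. -/
structure IsUP (p : ℕ → ℕ) (K : Type) [Field K] (π : (∀ n, ZMod (p n)) →+* K) : Prop where
  surj : Function.Surjective π
  tail : ∀ x : ∀ n, ZMod (p n), (∃ n₀, ∀ n, n₀ ≤ n → x n = 0) → π x = 0

/-- `U` is a large set: what vanishes on `U` is mapped to `0`. -/
def Lg {p : ℕ → ℕ} {K : Type} [Field K] (π : (∀ n, ZMod (p n)) →+* K) (U : Set ℕ) : Prop :=
  ∀ x : ∀ n, ZMod (p n), (∀ n ∈ U, x n = 0) → π x = 0

/-- **ExD.** (40 lines)  Existence.

*Proof.*  The sequences which are eventually `0` are a proper ideal of `∏ ZMod (p n)` (`1 ≠ 0` in `ZMod (p n)`); `K` is the quotient by a maximal ideal containing it (`Ideal.exists_le_maximal`,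
`Ideal.Quotient.field`). -/
def ExDStmt : Prop :=
  ∀ p : ℕ → ℕ, (∀ n, (p n).Prime) → ∃ (K : Type) (_ : Field K) (π : (∀ n, ZMod (p n)) →+* K),
    IsUP p K π

/-- **ChD.** (40 lines)  Characteristic `0`.

*Proof.*  Let `m ≥ 1`.  `(m : ZMod (p n)) ≠ 0` for `n ≥ m` (`m ≤ n < p n`, `ZMod.natCast_eq_zero_iff`).  The sequence `x n = (m : ZMod (p n))⁻¹` has `m x = 1` except for finitely many `n`, so `m π(x) = 1` (`tail` for `m x - 1`), so `(m : K) ≠ 0`
(`charZero_of_inj_zero`-like lemma). -/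
def ChDStmt : Prop :=
  ∀ (p : ℕ → ℕ) [∀ n, Fact (p n).Prime] (K : Type) [Field K] (π : (∀ n, ZMod (p n)) →+* K),
    IsUP p K π → (∀ n, n < p n) → CharZero K

/-- **LgD.** (80 lines)  Large sets.

*Proof.*  (1) `tail`.  (2) Clear.  (3) Let `x` vanish on `U ∩ V`; `x = x 1_U + x 1_(Uᶜ)` (classical indicator); `x 1_(Uᶜ)` vanishes on `U`, `x 1_U` vanishes on `V` (on `V ∩ U` by assumption, outside `U` by `1_U`).  (4) `π x = 0`: if `y` vanishes on `{x = 0}` then
`y = x * (y / x)` coordinatewise (division in the fields `ZMod (p n)`), so `π y = 0`.  (5) `y` vanishes on `{x ≠ 0}`: `x y = 0`, so `π x π y = 0`.  (6) `x = 1` vanishes on `∅`, but `π 1 = 1 ≠ 0`. -/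
def LgDStmt : Prop :=
  ∀ (p : ℕ → ℕ) [∀ n, Fact (p n).Prime] (K : Type) [Field K] (π : (∀ n, ZMod (p n)) →+* K),
    IsUP p K π → (∀ n₀, Lg π {n | n₀ ≤ n}) ∧ (∀ U V, U ⊆ V → Lg π U → Lg π V) ∧
      (∀ U V, Lg π U → Lg π V → Lg π (U ∩ V)) ∧
      (∀ x : ∀ n, ZMod (p n), π x = 0 → Lg π {n | x n = 0}) ∧
      (∀ x : ∀ n, ZMod (p n), π x ≠ 0 → Lg π {n | x n ≠ 0}) ∧ ∀ U, Lg π U → U.Nonempty

/-- **FinD.** (120 lines)  Uses LgD.  Homomorphisms from finitely generated subrings.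

*Proof.*  For `s ∈ S` choose `x^s ∈ ∏ ZMod (p n)` with `π x^s = s`.  `P = MvPolynomial S ℤ` is noetherian; `η : P → K`, `X_s ↦ s`, has range `cl S` (`Algebra.adjoin`/`Subring.closure` as the range of the evaluation,
`MvPolynomial`); its kernel is generated by finitely many `j_1, ..., j_r`.  `η_n : P → ZMod (p n)`, `X_s ↦ x^s n`; `η Q = π (n ↦ η_n Q)` for all `Q ∈ P` (two ring homomorphisms which agree on the `X_s`).  `U = {n | η_n j_i = 0 for all i}` is large (LgD (4), (3), (1) or (2) for the empty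
intersection).  For `n ∈ U` the map `η_n` factors through `cl S ≅ P / ker η`: `φ n`, `φ n (η Q) = η_n Q`.  If `x n = φ n a` for `n ∈ U`, `a = η Q`, then `x - (n ↦ η_n Q)` vanishes on `U`, so `π x = η Q = a`. -/
def FinDStmt : Prop :=
  ∀ (p : ℕ → ℕ) [∀ n, Fact (p n).Prime] (K : Type) [Field K] (π : (∀ n, ZMod (p n)) →+* K),
    IsUP p K π → ∀ S : Finset K, ∃ (U : Set ℕ) (φ : ∀ n, n ∈ U → (cl S →+* ZMod (p n))),
      Lg π U ∧ ∀ (a : cl S) (x : ∀ n, ZMod (p n)), (∀ n (h : n ∈ U), x n = φ n h a) → π x = a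

/-- **PacD.** (200 lines)  Uses WthE (block E), IrrB (block B), LgD, FinD in this order.  `K` is a PAC field.

*Proof.*  Let `f`, `g` be as in `PAC`, `n₀ = natDegree f`, `D ≥ 1` a bound for the degrees of all coefficients of `f` and of `g`.  `S` the union of the set from IrrB and of the coefficients of `f` and `g`; `f₀`, `g₀` the lifts to `cl S`.  FinD: `U`, `φ`.  For `n ∈ U` let
`f_n = f₀.map (mapRingHom (φ n))`, `g_n = g₀.map (φ n)` over `ZMod (p n)`: `f_n` is monic of degree `n₀`, the degrees of its coefficients are `≤ D`, and `f_n` is irreducible over `κ(X)`, `κ = AlgebraicClosure (ZMod (p n))` (IrrB for the composition `cl S → ZMod (p n) → κ`).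
WthE for `n₀`, `D`: `p₀`.  The set `{n | p₀ ≤ n}` is large, and `n ≥ p₀` gives `p n > p₀`.  Let `a₀` be the leading coefficient of `g`; the set `V` of the `n ∈ U` with `φ n a₀ ≠ 0` is large (LgD (5) for `x n = φ n a₀` on `U`, `0` elsewhere).  For `n` in the
large set `W = U ∩ V ∩ {n ≥ p₀}` we have `g_n ≠ 0`, so by WthE there are `x n, y n ∈ ZMod (p n)` with `g_n(x n) ≠ 0`, `f_n(x n, y n) = 0`; put `x n = y n = 0` for the other `n`.  `a = π x`, `b = π y`.  `f(a, b) = ∑ f_ij a^j b^i = π (n ↦ ∑ φ n (f_ij) (x n)^j (y n)^i)` (FinD for the finitely many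
coefficients; define the sequence as `0` outside `U`), and this sequence vanishes on `W`, so `f(a, b) = 0`.  If `g(a) = π (n ↦ g_n(x n)) = 0` then `{n | g_n(x n) = 0}` would be large, but it does not meet the large set `W` (LgD (3), (6)). -/
def PacDStmt : Prop :=
  ∀ (p : ℕ → ℕ) [∀ n, Fact (p n).Prime] (K : Type) [Field K] (π : (∀ n, ZMod (p n)) →+* K),
    IsUP p K π → (∀ n, n < p n) → PAC K

/-- **TrnD.** (30 lines)  Uses SpB (block B), LgD, FinD in this order.

*Proof.*  SpB: `S`; FinD: `U`, `φ`; `U` is large, so it has an element `n`; apply SpB to `φ n`. -/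
def TrnDStmt : Prop :=
  ∀ (p : ℕ → ℕ) [∀ n, Fact (p n).Prime] (K : Type) [Field K] [CharZero K]
    (π : (∀ n, ZMod (p n)) →+* K), IsUP p K π → ∀ (Γ : Type) [Group Γ] [Finite Γ] (ε : Γ →* ℤˣ)
    (e : ℕ), HH K Γ ε e → ∃ n, HH (ZMod (p n)) Γ ε e

end MP7U
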