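import Pool.Agent.Lib.MP_7f581e_U.D.Spec1

/-!
# C41 (MP_7f581e_nt), Block D: TrnD (task of helper93, by helper77)
-/

set_option autoImplicit false

namespace MP7U

open Polynomial

/-- **TrnD.** -/
theorem dTrnD (h1 : SpBStmt) (h2 : LgDStmt) (h3 : FinDStmt) : TrnDStmt := by
  intro p _ K _ _ π hπ Γ _ _ ε e hH
  obtain ⟨S, hS⟩ := h1 K Γ ε e hH
  obtain ⟨U, φ, hU, -⟩ := h3 p K π hπ S
  obtain ⟨n, hn⟩ := (h2 p K π hπ).2.2.2.2.2 U hU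
  exact ⟨n, hS (ZMod (p n)) (φ n hn)⟩

end MP7U
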